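import Pool.Agent.R624.DB.Main
import Pool.Agent.R624.DB.Enc
import Pool.Agent.R624.DB.Gr
import Pool.Agent.R624.DB.Ub
import Pool.Agent.R624.DB.No
import Pool.Agent.R624.DB.Reg
import Pool.Agent.R624.DB.B2
import Pool.Agent.R624.DB.G2
import Pool.Agent.R624.DB.G1a
import Pool.Agent.R624.DB.G1b

/-!
# Base size sets and determining sets of dihedral groups

Problem MP_4c7f2d_al, Q1 and Q2 answered in full.  Let `n ≥ 2`, and let `ω` be the number of prime
divisors of `n`.  Then `B(D_n) = {1, …, ω + 1}`, and `D(D_n) = {1, …, ω + 1}` if every odd prime
divisor of `n` has exponent at least two, or `n` is an odd prime, or `n` is twice an odd prime;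
otherwise `D(D_n) = {1, …, ω}`.  In particular `D(D_n) = B(D_n)` exactly in the first case.

Proof.  A set with one point moved by `r^(n/p)` for each prime `p ∣ n` and one more point is a base.
A faithful action for which the permutation group is 2-closed gives a graph with the same base size
(layers joined by matchings, with a rigid frame of fixed vertices).  The actions on
`⨆ D_{e_i}`, with `n = ∏ e_i` coprime, are 2-closed and have base sizes `1, …, ω`.  If the odd primes
have exponents at least two, then the action on `D_M ⊔ ⨆ Z_{p^a}`, `M = n / rad n` (with the edges of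
the `2^a`-gon added if `4 ∣ n`), is 2-closed and of base size `ω + 1`.  Finally let `p` be an odd prime
with `p ∥ n`, `n ≠ p, 2p`, and let `Aut Γ = D_n` have no base of size `ω`.  For every vertex `v` moved by
`r^(n/p)`, some reflection in the coset `t ⟨r^(n/p)⟩` fixes `v`, where `t` does not depend on `v`.  So the
permutation that is `t` on the vertices fixed by `r^(n/p)` and the identity on the others is an
automorphism of `Γ`, and it does not belong to `D_n`.
-/

set_option autoImplicit false

namespace Pool.Agent.Results.MP_4c7f2d_al.DihedralBaseSizes

open R624DB Set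

/-- The base size set and the determining set of `D_n` for all `n ≥ 2`, and the values of `n` for
which they are equal. -/
theorem result (n : ℕ) (hn : 2 ≤ n) :
    BSet (DihedralGroup n) = Icc 1 (n.primeFactors.card + 1) ∧
    (Good n → DSet (DihedralGroup n) = Icc 1 (n.primeFactors.card + 1)) ∧
    (¬ Good n → DSet (DihedralGroup n) = Icc 1 n.primeFactors.card) ∧
    (DSet (DihedralGroup n) = BSet (DihedralGroup n) ↔ Good n) :=
  main (s_gr s_enc) s_ub s_no s_R s_B2 s_G2 s_G1a s_G1b n hn

end Pool.Agent.Results.MP_4c7f2d_al.DihedralBaseSizes
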